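import Pool.Agent.Results.MP_3a09a4_co.SepContactLimit

set_option autoImplicit false

/-!
# Contact numbers of totally separable packings: `c_sep(n, 3) = 3 n - 3 n^(2/3) + O(n^(1/3))`

Q1 of MP_3a09a4_co asks whether `(3 n - c_sep(n, 3)) / n^(2/3)` tends to `3`. We prove explicit bounds on both
sides, for every `n`, with an error of order `n^(1/3)`, and that digital packings (integer centres) are optimal up
to an error of this order.
-/

open Filter Topology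

namespace Pool.Agent.Results.MP_3a09a4_co.CubeRootError

/-- Euclidean three-space -/
abbrev E3 : Type := EuclideanSpace ℝ (Fin 3)

/-- `X` is the set of centres of a packing of balls of diameter one: different balls have disjoint interiors -/
def IsPacking (X : Finset E3) : Prop :=
  ∀ x ∈ X, ∀ y ∈ X, x ≠ y →
    Disjoint (interior (Metric.closedBall x (1 / 2))) (interior (Metric.closedBall y (1 / 2)))

/-- any two members are separated by a plane missing the interiors of all members -/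
def IsTotallySeparable (X : Finset E3) : Prop :=
  ∀ x ∈ X, ∀ y ∈ X, x ≠ y → ∃ (v : E3) (t : ℝ), v ≠ 0 ∧
    (∀ p ∈ Metric.closedBall x (1 / 2 : ℝ), inner ℝ v p ≤ t) ∧
    (∀ p ∈ Metric.closedBall y (1 / 2 : ℝ), t ≤ inner ℝ v p) ∧
    (∀ z ∈ X, Disjoint {p : E3 | inner ℝ v p = t} (interior (Metric.closedBall z (1 / 2))))

/-- a digital packing: all centres have integer coordinates -/
def IsDigital (X : Finset E3) : Prop := ∀ x ∈ X, ∀ a : Fin 3, ∃ z : ℤ, x a = z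

/-- unordered pairs of distinct members that touch -/
def contactPairs (X : Finset E3) : Set (Sym2 E3) :=
  {e | ∃ x ∈ X, ∃ y ∈ X, x ≠ y ∧
    (Metric.closedBall x (1 / 2) ∩ Metric.closedBall y (1 / 2)).Nonempty ∧ e = s(x, y)}

/-- the contact number -/
noncomputable def contactNumber (X : Finset E3) : ℕ := (contactPairs X).ncard

/-- the contact numbers of totally separable packings of `n` balls of diameter one -/
def contactNumbers (n : ℕ) : Set ℕ :=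
  {m | ∃ X : Finset E3, X.card = n ∧ IsPacking X ∧ IsTotallySeparable X ∧ contactNumber X = m}

/-- the largest contact number -/
noncomputable def cSep (n : ℕ) : ℕ := sSup (contactNumbers n)

open Pool.Agent.Results.MP_3a09a4_co.SepContactLimit in
theorem bounds (n : ℕ) (hn : 1 ≤ n) :
    (3 * (n : ℝ) ^ (2 / 3 : ℝ) - 48 * (n : ℝ) ^ (1 / 3 : ℝ) ≤
      3 * (n : ℝ) - (Pool.Agent.Results.MP_3a09a4_co.SepContactLimit.cSep n : ℝ)) ∧
    ∃ X : Finset E3, X.card = n ∧ IsPacking X ∧ IsTotallySeparable X ∧ IsDigital X ∧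
      3 * (n : ℝ) - (contactNumber X : ℝ) ≤
        3 * (n : ℝ) ^ (2 / 3 : ℝ) + 6 * (n : ℝ) ^ (1 / 3 : ℝ) + 3 := by
  have hn0 : (0 : ℝ) < n := by exact_mod_cast hn
  have h13 : 0 < (n : ℝ) ^ (1 / 3 : ℝ) := Real.rpow_pos_of_pos hn0 _
  have h23 : 0 < (n : ℝ) ^ (2 / 3 : ℝ) := Real.rpow_pos_of_pos hn0 _
  have e2 : (n : ℝ) ^ (2 / 3 : ℝ) = ((n : ℝ) ^ (1 / 3 : ℝ)) ^ 2 := by
    rw [← Real.rpow_natCast, ← Real.rpow_mul hn0.le]; norm_num
  constructor
  · have h := upper_n hn (isGreatest_cSep hn).1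
    obtain ⟨h1, -, -⟩ := s_props hn
    set s : ℝ := (n : ℝ) ^ (-(1 / 3) : ℝ) with hs
    have e : (n : ℝ) * s = (n : ℝ) ^ (2 / 3 : ℝ) := by
      rw [hs]
      nth_rewrite 1 [← Real.rpow_one (n : ℝ)]
      rw [← Real.rpow_add hn0]; norm_num
    have e' : (n : ℝ) ^ (2 / 3 : ℝ) * s = (n : ℝ) ^ (1 / 3 : ℝ) := by
      rw [hs, ← Real.rpow_add hn0]; norm_num
    have h2 : 3 * (n : ℝ) ^ (2 / 3 : ℝ) ≤
        (3 * n - Pool.Agent.Results.MP_3a09a4_co.SepContactLimit.cSep n) * (1 + 16 * s) := by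
      rw [← e]; linarith
    rw [← e']
    set w : ℝ := 3 * n - (Pool.Agent.Results.MP_3a09a4_co.SepContactLimit.cSep n : ℝ) with hw
    have hs1 : 0 < 1 + 16 * s := by positivity
    by_contra hcon
    push Not at hcon
    have h3 : w * (1 + 16 * s) <
        (3 * (n : ℝ) ^ (2 / 3 : ℝ) - 48 * ((n : ℝ) ^ (2 / 3 : ℝ) * s)) * (1 + 16 * s) :=
      mul_lt_mul_of_pos_right hcon hs1
    have h4 : (3 * (n : ℝ) ^ (2 / 3 : ℝ) - 48 * ((n : ℝ) ^ (2 / 3 : ℝ) * s)) * (1 + 16 * s) =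
        3 * (n : ℝ) ^ (2 / 3 : ℝ) - 768 * (n : ℝ) ^ (2 / 3 : ℝ) * s ^ 2 := by ring
    have h5 : 0 ≤ 768 * (n : ℝ) ^ (2 / 3 : ℝ) * s ^ 2 := by positivity
    linarith
  · set k := ⌈(n : ℝ) ^ (1 / 3 : ℝ)⌉₊ with hk
    have hk1 : (n : ℝ) ^ (1 / 3 : ℝ) ≤ k := Nat.le_ceil _
    have hk2 : (k : ℝ) < (n : ℝ) ^ (1 / 3 : ℝ) + 1 := Nat.ceil_lt_add_one h13.le
    have e3 : ((n : ℝ) ^ (1 / 3 : ℝ)) ^ 3 = n := by
      rw [← Real.rpow_natCast, ← Real.rpow_mul hn0.le]; norm_num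
    have hnk : n ≤ k ^ 3 := by
      have : (n : ℝ) ≤ (k : ℝ) ^ 3 := by
        rw [← e3]
        exact pow_le_pow_left₀ h13.le hk1 3
      exact_mod_cast this
    obtain ⟨S, hS, hd, hc⟩ := exists_downClosed k (k ^ 3 - n) (by omega)
    have hc' : S.card = n := by omega
    have hcon := digital_contacts hS hd
    rw [hc'] at hcon
    refine ⟨S.map ⟨emb, emb_injective⟩, by rw [Finset.card_map, hc'], digital_packing S,
      digital_sep S, ?_, ?_⟩
    · intro x hx a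
      rw [Finset.mem_map] at hx
      obtain ⟨w, -, rfl⟩ := hx
      exact ⟨(w a : ℤ), by simp [emb_apply]⟩
    · have h3 : 3 * (n : ℝ) ≤ (contactNumber (S.map ⟨emb, emb_injective⟩) : ℝ) + 3 * (k : ℝ) ^ 2 := by
        exact_mod_cast hcon
      have hk3 : (k : ℝ) ^ 2 ≤ ((n : ℝ) ^ (1 / 3 : ℝ) + 1) ^ 2 :=
        pow_le_pow_left₀ (by positivity) hk2.le 2
      rw [e2]
      nlinarith

/-- For all `n ≥ 1`: the largest contact number `c_sep(n, 3)` of a totally separable packing of `n` balls of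
diameter one in three-space is a maximum; `3 n^(2/3) - 48 n^(1/3) ≤ 3 n - c_sep(n, 3) ≤ 3 n^(2/3) + 6 n^(1/3) + 3`;
some digital packing of `n` balls has at least `c_sep(n, 3) - 54 n^(1/3) - 3` contacts; and
`(3 n - c_sep(n, 3)) / n^(2/3) → 3`. -/
theorem result :
    (∀ n : ℕ, 1 ≤ n → IsGreatest (contactNumbers n) (cSep n)) ∧
    (∀ n : ℕ, 1 ≤ n →
      3 * (n : ℝ) ^ (2 / 3 : ℝ) - 48 * (n : ℝ) ^ (1 / 3 : ℝ) ≤ 3 * (n : ℝ) - (cSep n : ℝ) ∧
      3 * (n : ℝ) - (cSep n : ℝ) ≤ 3 * (n : ℝ) ^ (2 / 3 : ℝ) + 6 * (n : ℝ) ^ (1 / 3 : ℝ) + 3) ∧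
    (∀ n : ℕ, 1 ≤ n → ∃ X : Finset E3, X.card = n ∧ IsPacking X ∧ IsTotallySeparable X ∧ IsDigital X ∧
      (cSep n : ℝ) ≤ contactNumber X + 54 * (n : ℝ) ^ (1 / 3 : ℝ) + 3) ∧
    Tendsto (fun n : ℕ => (3 * (n : ℝ) - (cSep n : ℝ)) / (n : ℝ) ^ (2 / 3 : ℝ)) atTop (𝓝 3) := by
  have hG : ∀ n : ℕ, 1 ≤ n → IsGreatest (contactNumbers n) (cSep n) := fun n hn =>
    Pool.Agent.Results.MP_3a09a4_co.SepContactLimit.isGreatest_cSep hn
  have hc : ∀ n, Pool.Agent.Results.MP_3a09a4_co.SepContactLimit.cSep n = cSep n := fun _ => rfl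
  refine ⟨hG, fun n hn => ?_, fun n hn => ?_,
    Pool.Agent.Results.MP_3a09a4_co.SepContactLimit.limit⟩
  · obtain ⟨h1, X, hX, hp, hs, -, h2⟩ := bounds n hn
    rw [hc] at h1
    have h3 : contactNumber X ≤ cSep n := (hG n hn).2 ⟨X, hX, hp, hs, rfl⟩
    have h4 : (contactNumber X : ℝ) ≤ cSep n := by exact_mod_cast h3
    exact ⟨h1, by linarith⟩
  · obtain ⟨h1, X, hX, hp, hs, hd, h2⟩ := bounds n hn
    rw [hc] at h1
    exact ⟨X, hX, hp, hs, hd, by linarith⟩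

end Pool.Agent.Results.MP_3a09a4_co.CubeRootError
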